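import Pool.Agent.H.MP_fc2485_gt.Final4

/-!
Let `M` be a compact connected Riemannian surface with non-empty boundary, of any genus and with
any metric, and let `σ > 0`. Only finitely many maps of the class have values in the unit ball of
`ℝⁿ` with `n ≤ 4`, up to congruence. The pairs of points separated by all these maps form an open
set, which is dense in the pairs of boundary points.
-/

open Set Topology

namespace Pool.Agent.Results.MP_fc2485_gt.BallDimensionFour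

theorem result {S : Type*} [TopologicalSpace S] [CompactSpace S] [ConnectedSpace S]
    (M : Stek.Surface S) (σ : ℝ) (hσ : 0 < σ) (hb : M.bdry.Nonempty) :
    {G : S → S → ℝ | ∃ n : ℕ, n ≤ 4 ∧ ∃ Φ : Fin n → S → ℝ, M.IsFree σ Φ ∧
        ∀ x y, G x y = ∑ k, Φ k x * Φ k y}.Finite ∧
      IsOpen {z : S × S | ∀ n : ℕ, n ≤ 4 → ∀ Φ : Fin n → S → ℝ, M.IsFree σ Φ →
        ∃ k, Φ k z.1 ≠ Φ k z.2} ∧
      ∀ p ∈ M.bdry, ∀ q ∈ M.bdry, ∀ O ∈ 𝓝 p, ∀ O' ∈ 𝓝 q,
        ∃ p' ∈ O ∩ connectedComponentIn M.bdry p, ∃ q' ∈ O' ∩ connectedComponentIn M.bdry q,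
          ∀ n : ℕ, n ≤ 4 → ∀ Φ : Fin n → S → ℝ, M.IsFree σ Φ → ∃ k, Φ k p' ≠ Φ k q' :=
  have hfin := M.kernels_finite (M.finite_eigenspace σ) hb
  ⟨hfin, M.separated4_open hfin, fun _ hp _ hq _ hO _ hO' =>
    M.separation4 hσ (M.finite_eigenspace σ) hp hq hO hO'⟩

end Pool.Agent.Results.MP_fc2485_gt.BallDimensionFour
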