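import Pool.Agent.H.MP_fc2485_gt.Sv6.Final6

/-!
Let `M` be a compact connected Riemannian surface, of any genus, orientable or not, with any
metric, and with disconnected boundary, and let `σ > 0`. There are two boundary points in different
boundary components which are separated by all the conformal maps to the unit ball of `ℝⁿ`,
`n ≤ 6`, by `σ`-eigenfunctions.
-/

open Set Topology

namespace Pool.Agent.Results.MP_fc2485_gt.BallDimensionSix

theorem result {S : Type*} [TopologicalSpace S] [CompactSpace S] [T2Space S] [ConnectedSpace S]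
    (M : Stek.Surface S) (σ : ℝ) (hσ : 0 < σ)
    (h2 : ∃ p ∈ M.bdry, ∃ q ∈ M.bdry,
      connectedComponentIn M.bdry p ≠ connectedComponentIn M.bdry q) :
    ∃ p ∈ M.bdry, ∃ q ∈ M.bdry,
      connectedComponentIn M.bdry p ≠ connectedComponentIn M.bdry q ∧
      ∀ n : ℕ, n ≤ 6 → ∀ Φ : Fin n → S → ℝ, M.IsFree σ Φ → ∃ k, Φ k p ≠ Φ k q :=
  Stek.Sv.separated_ball6 M hσ h2

end Pool.Agent.Results.MP_fc2485_gt.BallDimensionSix
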