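import Pool.Agent.H.MP_fc2485_gt.Sv9.Final9

/-!
Let `M` be a compact connected Riemannian surface, of any genus, orientable or not, with any
metric, and with disconnected boundary, and let `σ > 0` be such that the Steklov eigenspace of `σ`
has dimension at most nine. There are two boundary points in different boundary components which
are separated by all the conformal maps to unit balls by `σ`-eigenfunctions.
-/

open Set Topology

namespace Pool.Agent.Results.MP_fc2485_gt.MultiplicityNine

theorem result {S : Type*} [TopologicalSpace S] [CompactSpace S] [T2Space S] [ConnectedSpace S]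
    (M : Stek.Surface S) (σ : ℝ) (hσ : 0 < σ) (hdim : Module.rank ℝ (M.eigenspace σ) ≤ 9)
    (h2 : ∃ p ∈ M.bdry, ∃ q ∈ M.bdry,
      connectedComponentIn M.bdry p ≠ connectedComponentIn M.bdry q) :
    ∃ p ∈ M.bdry, ∃ q ∈ M.bdry,
      connectedComponentIn M.bdry p ≠ connectedComponentIn M.bdry q ∧
      ∀ (n : ℕ) (Φ : Fin n → S → ℝ), M.IsFree σ Φ → ∃ k, Φ k p ≠ Φ k q :=
  Stek.Sv.separated9 M hσ hdim h2

end Pool.Agent.Results.MP_fc2485_gt.MultiplicityNine
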