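import Pool.Agent.H.MP_fc2485_gt.Main

/-!
Let `M` be a connected Riemannian surface with boundary, of any genus, and let `σ > 0` be such that
the Steklov eigenspace of `σ` has dimension at most six. Then in every neighbourhood of every pair
of boundary points there is a pair of boundary points, in the same boundary components, which is
separated by all the conformal maps to unit balls by `σ`-eigenfunctions. In particular the
conclusion of the question holds for every maximiser whose first eigenspace has dimension at
most six.
-/

open Set Topology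

namespace Pool.Agent.Results.MP_fc2485_gt.MultiplicitySix

theorem result {S : Type*} [TopologicalSpace S] [ConnectedSpace S] (M : Stek.Surface S) (σ : ℝ)
    (hσ : 0 < σ) (hdim : Module.rank ℝ (M.eigenspace σ) ≤ 6) (p q : S) (hp : p ∈ M.bdry)
    (hq : q ∈ M.bdry) (O O' : Set S) (hO : O ∈ 𝓝 p) (hO' : O' ∈ 𝓝 q) :
    ∃ p' ∈ O ∩ connectedComponentIn M.bdry p, ∃ q' ∈ O' ∩ connectedComponentIn M.bdry q,
      ∀ (n : ℕ) (Φ : Fin n → S → ℝ), M.IsFree σ Φ → ∃ k, Φ k p' ≠ Φ k q' :=
  M.separation hσ hdim hp hq hO hO'

end Pool.Agent.Results.MP_fc2485_gt.MultiplicitySix
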